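import Pool.Agent.W841.PK.Stm2

/-! Gaussian facts `S_Gauss` (project PK, task PK-GAUSS). -/

set_option autoImplicit false

namespace Pool.Agent.W563.PK

open Finset W841.PK MeasureTheory Set Filter

noncomputable section

theorem s2pi_pos : (0 : ℝ) < √(2 * Real.pi) := Real.sqrt_pos.2 (by positivity)

theorem gd_eq : gd = fun x : ℝ => (√(2 * Real.pi))⁻¹ * Real.exp (-(1 / 2 : ℝ) * x ^ 2) := by
  funext x
  unfold gd
  rw [div_eq_inv_mul]
  congr 2
  ring

theorem gd_int : Integrable gd := by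
  rw [gd_eq]
  exact (integrable_exp_neg_mul_sq (by norm_num)).const_mul _

theorem gd_cont : Continuous gd := by
  unfold gd; fun_prop

theorem gd_pos (x : ℝ) : 0 < gd x := by
  unfold gd
  exact div_pos (Real.exp_pos _) s2pi_pos

theorem gd_total : ∫ x, gd x = 1 := by
  rw [gd_eq, integral_const_mul, integral_gaussian]
  have : Real.pi / (1 / 2) = 2 * Real.pi := by ring
  rw [this]
  exact inv_mul_cancel₀ s2pi_pos.ne'

theorem gd_even (x : ℝ) : gd (-x) = gd x := by
  unfold gd; simp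

theorem gd_le (x : ℝ) : gd x ≤ 2 / 5 := by
  unfold gd
  rw [div_le_iff₀ s2pi_pos]
  have h1 : Real.exp (-x ^ 2 / 2) ≤ 1 := Real.exp_le_one_iff.2 (by nlinarith [sq_nonneg x])
  have h2 : (5 / 2 : ℝ) ≤ √(2 * Real.pi) := by
    apply Real.le_sqrt_of_sq_le
    have := Real.pi_gt_d4
    norm_num
    linarith
  nlinarith

theorem Ph_diff (x y : ℝ) : Ph y - Ph x = ∫ u in x..y, gd u := by
  unfold Ph
  exact intervalIntegral.integral_Iic_sub_Iic gd_int.integrableOn gd_int.integrableOn

theorem Ph_deriv (x : ℝ) : HasDerivAt Ph (gd x) x := by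
  have h : Ph = fun y => Ph 0 + ∫ u in (0 : ℝ)..y, gd u := by
    funext y; rw [← Ph_diff]; ring
  rw [h]
  refine HasDerivAt.const_add _ ?_
  exact intervalIntegral.integral_hasDerivAt_right (gd_cont.intervalIntegrable _ _)
    (gd_cont.stronglyMeasurableAtFilter _ _) gd_cont.continuousAt

theorem Ph_neg (x : ℝ) : Ph (-x) = 1 - Ph x := by
  have h1 : Ph (-x) = ∫ u in Ioi x, gd u := by
    unfold Ph
    rw [← integral_comp_neg_Ioi]
    simp only [gd_even]
  have h2 : Ph x + ∫ u in Ioi x, gd u = 1 := by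
    rw [← gd_total]
    unfold Ph
    exact intervalIntegral.integral_Iic_add_Ioi gd_int.integrableOn gd_int.integrableOn
  rw [h1]; linarith

theorem Ph_strict : StrictMono Ph := by
  refine strictMono_of_deriv_pos fun x => ?_
  rw [(Ph_deriv x).deriv]
  exact gd_pos x

theorem Ph_top : Tendsto Ph atTop (nhds 1) := by
  rw [← gd_total]
  unfold Ph
  exact MeasureTheory.tendsto_setIntegral_of_monotone (fun _ => measurableSet_Iic)
    (fun a b h => Iic_subset_Iic.2 h) gd_int.integrableOn |>.trans (by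
      rw [show (⋃ i : ℝ, Iic i) = univ from iUnion_Iic_of_not_bddAbove_range (by simp [not_bddAbove_univ])]
      simp)

theorem Ph_nonneg (x : ℝ) : 0 ≤ Ph x := integral_nonneg fun u => (gd_pos u).le

theorem absgd_int : Integrable (fun x : ℝ => |x| * gd x) := by
  have h := (integrable_mul_exp_neg_mul_sq (b := 1 / 2) (by norm_num)).norm.const_mul
    (√(2 * Real.pi))⁻¹
  refine h.congr (ae_of_all _ fun x => ?_)
  simp only [gd_eq, norm_mul, Real.norm_eq_abs, Real.abs_exp]
  ring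

theorem absgd_le : ∫ x : ℝ, |x| * gd x ≤ 1 := by
  have h : (fun x : ℝ => |x| * gd x) =
      fun x : ℝ => (√(2 * Real.pi))⁻¹ * ((fun y : ℝ => y * Real.exp (-(1 / 2 : ℝ) * y ^ 2)) |x|) := by
    funext x
    simp only [gd_eq, sq_abs]
    ring
  rw [h, integral_const_mul,
    integral_comp_abs (f := fun y : ℝ => y * Real.exp (-(1 / 2 : ℝ) * y ^ 2))]
  have h2 : ∫ x in Ioi (0 : ℝ), x * Real.exp (-(1 / 2 : ℝ) * x ^ 2) = 1 := by
    have h3 := integral_rpow_mul_exp_neg_mul_rpow (p := 2) (q := 1) (b := 1 / 2) (by norm_num)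
      (by norm_num) (by norm_num)
    have h4 : ∫ x in Ioi (0 : ℝ), x ^ (1 : ℝ) * Real.exp (-(1 / 2 : ℝ) * x ^ (2 : ℝ)) =
        ∫ x in Ioi (0 : ℝ), x * Real.exp (-(1 / 2 : ℝ) * x ^ 2) := by
      refine setIntegral_congr_fun measurableSet_Ioi fun x _ => ?_
      simp only [Real.rpow_one, Real.rpow_two]
    rw [← h4, h3]
    norm_num
  rw [h2, mul_one, inv_mul_le_iff₀ s2pi_pos, mul_one]
  apply Real.le_sqrt_of_sq_le
  have := Real.pi_gt_three
  norm_num
  linarith

theorem gauss : S_Gauss := by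
  have hb : Tendsto Ph atBot (nhds 0) := by
    have h1 : Ph = fun x => 1 - Ph (-x) := by
      funext x; rw [Ph_neg]; ring
    rw [h1]
    have h2 : Tendsto (fun x => 1 - Ph (-x)) atBot (nhds (1 - 1)) :=
      (Ph_top.comp tendsto_neg_atBot_atTop).const_sub 1
    simpa using h2
  have hpos : ∀ x, 0 < Ph x := fun x => lt_of_le_of_lt (Ph_nonneg (x - 1)) (Ph_strict (by linarith))
  refine ⟨Ph_deriv, fun x => ⟨gd_pos x, gd_le x⟩, Ph_neg, Ph_strict.monotone, fun x => ⟨hpos x, ?_⟩,
    Ph_top, hb, gd_int, gd_total, absgd_int, absgd_le⟩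
  have := hpos (-x)
  rw [Ph_neg] at this
  linarith

end

end Pool.Agent.W563.PK
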