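import Pool.Agent.W841.PK.Api

/-! The maximal inequality `S_ML` (project PK, task PK-ML). -/

set_option autoImplicit false

namespace Pool.Agent.W563.PK

open Finset W841.PK
open scoped Classical symmDiff

noncomputable section

variable {n : ℕ}

/-- partial sums stay small up to time `j` -/
def AA (Y : ℕ → SimpleGraph (Fin n) → ℝ) (lam : ℝ) (j : ℕ) (G : SimpleGraph (Fin n)) : Prop :=
  ∀ i ≤ j, |∑ l ∈ range i, Y l G| ≤ lam

/-- the stopped sum -/
def ZZ (Y : ℕ → SimpleGraph (Fin n) → ℝ) (lam : ℝ) (t : ℕ) (G : SimpleGraph (Fin n)) : ℝ :=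
  ∑ j ∈ range t, if AA Y lam j G then Y j G else 0

theorem AA_mono {Y : ℕ → SimpleGraph (Fin n) → ℝ} {lam : ℝ} {i j : ℕ} (h : i ≤ j)
    {G : SimpleGraph (Fin n)} (hA : AA Y lam j G) : AA Y lam i G :=
  fun l hl => hA l (hl.trans h)

theorem ZZ_eq {Y : ℕ → SimpleGraph (Fin n) → ℝ} {lam : ℝ} {t : ℕ}
    {G : SimpleGraph (Fin n)} (hA : ∀ j < t, AA Y lam j G) : ZZ Y lam t G = ∑ j ∈ range t, Y j G := by
  unfold ZZ
  refine sum_congr rfl fun j hj => ?_
  rw [if_pos (hA j (mem_range.1 hj))]

theorem ZZ_eq_of_le {Y : ℕ → SimpleGraph (Fin n) → ℝ} {lam : ℝ} {t N : ℕ} (h : t ≤ N)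
    {G : SimpleGraph (Fin n)} (hA : ∀ j < t, AA Y lam j G) (hB : ¬ AA Y lam t G) :
    ZZ Y lam N G = ∑ j ∈ range t, Y j G := by
  rw [← ZZ_eq hA]
  unfold ZZ
  symm
  refine sum_subset (fun j hj => mem_range.2 (lt_of_lt_of_le (mem_range.1 hj) h)) ?_
  intro j _ hj2
  rw [if_neg]
  intro hh
  exact hB (AA_mono (not_lt.1 fun h' => hj2 (mem_range.2 h')) hh)

theorem ml : S_ML := by
  intro n S ρ N Y e1 e2 lam hlam hY he1 h1 h2
  have hAm : ∀ j ≤ N, ∀ G G', SameHist S ρ j G G' → ∀ i ≤ j,
      ∑ l ∈ range i, Y l G = ∑ l ∈ range i, Y l G' := by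
    intro j hj G G' hG i hi
    refine sum_congr rfl fun l hl => ?_
    have hl' := mem_range.1 hl
    exact hY l (by omega) G G' (hG.le (by omega))
  have hA : ∀ j ≤ N, ∀ G G', SameHist S ρ j G G' → (AA Y lam j G ↔ AA Y lam j G') := by
    intro j hj G G' hG
    unfold AA
    constructor
    · intro h i hi
      rw [← hAm j hj G G' hG i hi]; exact h i hi
    · intro h i hi
      rw [hAm j hj G G' hG i hi]; exact h i hi
  have key : ∀ t ≤ N, Ex (fun G => ZZ Y lam t G ^ 2) ≤
      ∑ j ∈ range t, (Ex (e2 j) + 2 * lam * Ex (e1 j)) := by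
    intro t
    induction t with
    | zero =>
      intro _
      simp only [range_zero, sum_empty]
      refine le_of_eq ?_
      rw [show (fun G => ZZ Y lam 0 G ^ 2) = fun _ => (0 : ℝ) from by
        funext G; simp [ZZ]]
      exact Ex_zero
    | succ t ih =>
      intro ht
      have ih' := ih (by omega)
      rw [sum_range_succ]
      set φ : SimpleGraph (Fin n) → ℝ := fun G =>
        if AA Y lam t G then 2 * ∑ l ∈ range t, Y l G else 0 with hφ
      have hφm : Meas S ρ t φ := by
        intro G G' hG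
        simp only [hφ]
        have e1 := hA t (by omega) G G' hG
        have e2 := hAm t (by omega) G G' hG t le_rfl
        by_cases hc : AA Y lam t G
        · rw [if_pos hc, if_pos (e1.1 hc), e2]
        · rw [if_neg hc, if_neg (fun h => hc (e1.2 h))]
      have hφb : ∀ G, |φ G| ≤ 2 * lam := by
        intro G
        simp only [hφ]
        by_cases hc : AA Y lam t G
        · rw [if_pos hc, abs_mul, abs_of_pos (by norm_num : (0 : ℝ) < 2)]
          exact mul_le_mul_of_nonneg_left (hc t le_rfl) (by norm_num)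
        · rw [if_neg hc, abs_zero]; positivity
      have hz : ∀ G, ZZ Y lam (t + 1) G ^ 2 ≤ ZZ Y lam t G ^ 2 + (φ G * Y t G + Y t G ^ 2) := by
        intro G
        have hs : ZZ Y lam (t + 1) G = ZZ Y lam t G + if AA Y lam t G then Y t G else 0 := by
          unfold ZZ; rw [sum_range_succ]
        rw [hs]
        by_cases hc : AA Y lam t G
        · have hzz : ZZ Y lam t G = ∑ l ∈ range t, Y l G :=
            ZZ_eq fun j hj => AA_mono hj.le hc
          simp only [hφ, if_pos hc]
          rw [hzz]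
          apply le_of_eq; ring
        · simp only [hφ, if_neg hc]
          have := sq_nonneg (Y t G)
          nlinarith
      have a1 : Ex (fun G => ZZ Y lam (t + 1) G ^ 2) ≤
          Ex (fun G => ZZ Y lam t G ^ 2) + (Ex (fun G => φ G * Y t G) + Ex (fun G => Y t G ^ 2)) := by
        rw [← Ex_add, ← Ex_add]
        exact Ex_mono hz
      have a2 : Ex (fun G => φ G * Y t G) ≤ 2 * lam * Ex (e1 t) := by
        refine le_trans (le_abs_self _) (le_trans (h1 t (by omega) φ hφm) ?_)
        rw [← Ex_mul_left]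
        exact Ex_mono fun G => mul_le_mul_of_nonneg_right (hφb G) (he1 t G)
      have a3 := h2 t (by omega)
      linarith
  refine le_trans ?_ (key N le_rfl)
  unfold Pr
  rw [← Ex_mul_left]
  refine Ex_mono fun G => ?_
  by_cases hE : ∃ t ≤ N, lam < |∑ j ∈ range t, Y j G|
  · rw [if_pos hE, mul_one]
    have hex : ∃ t, ¬ AA Y lam t G := by
      obtain ⟨t, _, ht⟩ := hE
      exact ⟨t, fun h => absurd (h t le_rfl) (not_le.2 ht)⟩
    have hmin := fun {m : ℕ} => Nat.find_min hex (m := m)
    have hsp := Nat.find_spec hex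
    set t0 := Nat.find hex with ht0
    have hle : t0 ≤ N := by
      obtain ⟨t, htN, ht⟩ := hE
      exact le_trans (Nat.find_min' hex fun h => absurd (h t le_rfl) (not_le.2 ht)) htN
    have hAj : ∀ j < t0, AA Y lam j G := fun j hj => not_not.1 (hmin hj)
    rw [ZZ_eq_of_le hle hAj hsp]
    have hlt : lam < |∑ j ∈ range t0, Y j G| := by
      by_contra hc
      apply hsp
      intro i hi
      rcases hi.lt_or_eq with h | h
      · exact hAj i h i le_rfl
      · rw [h]; exact not_lt.1 hc
    rw [← sq_abs (∑ j ∈ range t0, Y j G)]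
    exact pow_le_pow_left₀ hlam.le hlt.le 2
  · rw [if_neg hE, mul_zero]; exact sq_nonneg _

end

end Pool.Agent.W563.PK
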